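import Pool.Agent.LibFP27.Stmt

/-!
Zero-cycles on products of curves over `k = ℚ̄` and the cycles of Faber and Pandharipande of modular curves.

A curve is given by its function field over `k`, its points are the places. `CH0 k K₁ K₂` is the group of zero-cycles on the
product of the curves of `K₁` and `K₂` modulo rational equivalence (push-forwards of divisors of functions on curves mapped to
the product), `RatEqN k K` is rational equivalence on the product of the curves of `K 0, ..., K (n-1)`.
`box p q r s = (p - q) × (r - s)`, `fp D = D × D - deg(D) Δ(D)`. A `ModCurve` is a Galois covering `J` of the projective line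
with the ramification indices `3` over `0` and `2` over `1`, not ramified outside `0`, `1`, `∞`: the modular curve of a torsion
free normal subgroup of finite index of `PSL₂(ℤ)`, with `j = 1728 J`; the cusps are the poles of `J`.

* `St0`: the differential of a non-constant function has exactly one divisor.
* `St1`: for `p ≠ q` on `C₁` and `r ≠ s` on `C₂` there is a modular curve `Y` such that every modular curve `X` over `Y` has
  finite maps `P`, `Q` to `C₁`, `C₂` with `m (p - q) × (r - s) + n (P × Q)_* FP(X) = 0`, `m, n > 0`.
* `St2`: every zero-cycle of degree zero with torsion Albanese image on a product of curves is generated modulo torsion by the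
  images of the cycle `FP(X)`, for every modular curve `X` over some `Y`.
* `St3`: `p² (72 FP(X) + (p - 6)² c(X)) = 0`, where `c(X)` is the sum of the `(v - v') × (v - v')` over the cusps and `p` is
  the cusp width.
* `St4`: there is a tower of modular curves which dominates all of them.
* For every cofinal family `S` of modular curves the following are equivalent. `StA`: every zero-cycle of degree zero with
  torsion Albanese image on a product of curves over `k` is torsion. `StB`: all `(p - q) × (r - s)` are torsion. `StC`:
  `FP(C)` is torsion for all curves `C`. `StD`: `FP(X)` is torsion for all `X` in `S`. `StE`: `c(X)` is torsion for all `X`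
  in `S`.
-/

namespace Pool.Agent.Results.MP_29b22a_nt.BelyiGenerators

open Pool.Agent.LibFP27

theorem result (k : Type) [Field k] [IsAlgClosed k] [CharZero k] [Algebra.IsAlgebraic ℚ k] :
    St0 k ∧ St1 k ∧ St2 k ∧ St3 k ∧ St4 k ∧
      ∀ S : Set (ModCurve k), CofinalM S → [StA k, StB k, StC k, StD S, StE S].TFAE := by
  refine ⟨fun K _ _ β hK hβ => canon_unique hK β hβ, fun K₁ K₂ _ _ _ _ h₁ h₂ p q r s hpq hrs =>
    generatorsM k K₁ K₂ h₁ h₂ p q r s hpq hrs, fun n K _ _ hK z hz => alb_dom hK z hz, ?_, towerM,
    fun S hS => tfae_all k S hS⟩
  intro X D C hD hC
  obtain ⟨p, hp, hv, h⟩ := fp_cusps X.isFunctionField X.J X.modular D hD C hC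
  refine ⟨p, hp, hv, ?_⟩
  rw [cls_cuspCyc, ← h, smul_add, ← natCast_zsmul, ← natCast_zsmul, smul_smul, ← natCast_zsmul, smul_smul]
  congr 2
  push_cast
  ring

end Pool.Agent.Results.MP_29b22a_nt.BelyiGenerators
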